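import Mathlib
import Pool.Agent.W_MP_061f3a_gt.Defs
import Pool.Agent.W_MP_061f3a_gt.Global

open scoped Topology ContDiff Manifold

namespace Pool.Agent.Results.MP_061f3a_gt.NoNullityHypersurface

open Pool.Agent.W_MP_061f3a_gt

/-- No real hypersurface of the complex two-plane Grassmannian (`ε = 1`) or of its non-compact
dual (`ε = -1`) has, even at a single point, a structure vector `ξ_i` satisfying the
`(κ, μ, ν)_i`-nullity identity. -/
theorem result {m : ℕ} (hm : 3 ≤ m) {c ε : ℝ} (hc : 0 < c) (hε : ε = 1 ∨ ε = -1)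
    {M : Type*} [TopologicalSpace M] [ChartedSpace (Coord (4 * m - 1)) M]
    [IsManifold 𝓘(ℝ, Coord (4 * m - 1)) ∞ M]
    (F : M → Mat m) (hF : IsImmersion (d := 4 * m - 1) ε F) (p : M)
    (n : M → Mat m) (hn : IsUnitNormal (d := 4 * m - 1) c ε F n p)
    (q : Fin 3 → Mat m) (hq : IsFrame ε (F p) q) (i : Fin 3) (κ μ ν : ℝ) :
    ¬ NullityAt c ε (inChart (d := 4 * m - 1) F p) (inChart (d := 4 * m - 1) n p) (q i) κ μ ν
      (extChartAt 𝓘(ℝ, Coord (4 * m - 1)) p p) :=
  global_main hm hc hε F hF p n hn q hq i κ μ ν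

end Pool.Agent.Results.MP_061f3a_gt.NoNullityHypersurface
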